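import Mathlib

/-!
# Relaxation complexity versus the hiding set bound in dimension three

For every `h` there is a finite, full-dimensional, lattice-convex set `X ⊆ ℤ³` whose relaxation
complexity exceeds the hiding set bound by more than `h`.
-/

set_option autoImplicit false

namespace Pool.Agent.Results.MP_288038_co.GapUnbounded

open Set

/-- An integer point as a real point. -/
def emb {d : ℕ} (z : Fin d → ℤ) : Fin d → ℝ := fun i => (z i : ℝ)

/-- The convex hull of a set of integer points. -/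
def hull {d : ℕ} (X : Set (Fin d → ℤ)) : Set (Fin d → ℝ) := convexHull ℝ (emb '' X)

/-- `X` contains every integer point of its convex hull. -/
def LatticeConvex {d : ℕ} (X : Set (Fin d → ℤ)) : Prop := ∀ z, emb z ∈ hull X → z ∈ X

/-- `X` is full-dimensional. -/
def FullDim {d : ℕ} (X : Set (Fin d → ℤ)) : Prop := affineSpan ℝ (emb '' X) = ⊤

/-- Some polyhedron given by `k` (real) linear inequalities has `X` as its set of integer
points. -/
def HasRelaxation {d : ℕ} (X : Set (Fin d → ℤ)) (k : ℕ) : Prop :=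
  ∃ (a : Fin k → Fin d → ℝ) (b : Fin k → ℝ),
    ∀ z : Fin d → ℤ, z ∈ X ↔ ∀ j, ∑ i, a j i * (z i : ℝ) ≤ b j

/-- The relaxation complexity. -/
noncomputable def rc {d : ℕ} (X : Set (Fin d → ℤ)) : ℕ := sInf {k | HasRelaxation X k}

/-- `H` is a hiding set of `X`. -/
def Hiding {d : ℕ} (X : Set (Fin d → ℤ)) (H : Finset (Fin d → ℤ)) : Prop :=
  (∀ p ∈ H, p ∉ X) ∧
    ∀ p ∈ H, ∀ q ∈ H, p ≠ q → (segment ℝ (emb p) (emb q) ∩ hull X).Nonempty

/-- The hiding set bound. -/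
noncomputable def hidingBound {d : ℕ} (X : Set (Fin d → ℤ)) : ℕ :=
  sSup {n | ∃ H : Finset (Fin d → ℤ), Hiding X H ∧ H.card = n}

/-! ### A general fact: finite lattice-convex sets have relaxations -/

theorem hull_finite_closed {d : ℕ} {X : Set (Fin d → ℤ)} (hX : X.Finite) :
    IsClosed (hull X) :=
  ((hX.image emb).isCompact_convexHull (𝕜 := ℝ)).isClosed

theorem exists_relaxation {d : ℕ} {X : Set (Fin d → ℤ)} (hX : X.Finite)
    (hc : LatticeConvex X) : ∃ k, HasRelaxation X k := by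
  classical
  -- a box containing X
  obtain ⟨N, hN⟩ : ∃ N : ℤ, ∀ z ∈ X, ∀ i, -N ≤ z i ∧ z i ≤ N := by
    obtain ⟨s, hs⟩ : ∃ s : Finset (Fin d → ℤ), (s : Set (Fin d → ℤ)) = X :=
      ⟨hX.toFinset, hX.coe_toFinset⟩
    refine ⟨∑ z ∈ s, ∑ i, |z i|, ?_⟩
    intro z hz i
    have hz' : z ∈ s := by rw [← hs] at hz; exact hz
    have h1 : |z i| ≤ ∑ i, |z i| :=
      Finset.single_le_sum (f := fun i => |z i|) (fun j _ => abs_nonneg _) (Finset.mem_univ i)
    have h2 : ∑ i, |z i| ≤ ∑ z ∈ s, ∑ i, |z i| :=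
      Finset.single_le_sum (f := fun z : Fin d → ℤ => ∑ i, |z i|)
        (fun j _ => Finset.sum_nonneg fun _ _ => abs_nonneg _) hz'
    have h3 := abs_le.1 (h1.trans h2)
    exact h3
  -- outside points in the box
  have hfin : {z : Fin d → ℤ | (∀ i, -N ≤ z i ∧ z i ≤ N) ∧ z ∉ X}.Finite := by
    apply Set.Finite.subset (Set.finite_Icc (fun _ : Fin d => -N) (fun _ => N))
    rintro z ⟨hz, -⟩
    exact ⟨fun i => (hz i).1, fun i => (hz i).2⟩
  have hsep : ∀ z : Fin d → ℤ, z ∉ X → ∃ (a : Fin d → ℝ) (b : ℝ),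
      (∀ y ∈ X, ∑ i, a i * (y i : ℝ) ≤ b) ∧ b < ∑ i, a i * (z i : ℝ) := by
    intro z hz
    have hz' : emb z ∉ hull X := fun h => hz (hc z h)
    obtain ⟨f, u, hf1, hf2⟩ := geometric_hahn_banach_closed_point (convex_convexHull ℝ _)
      (hull_finite_closed hX) hz'
    have hf : ∀ x : Fin d → ℝ, f x = ∑ i, f (Pi.single i 1) * x i := by
      intro x
      conv_lhs => rw [pi_eq_sum_univ' x]
      rw [map_sum]
      apply Finset.sum_congr rfl
      intro i _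
      rw [map_smul, smul_eq_mul, mul_comm]
    refine ⟨fun i => f (Pi.single i 1), u, ?_, ?_⟩
    · intro y hy
      have := hf1 (emb y) (subset_convexHull ℝ _ ⟨y, hy, rfl⟩)
      rw [hf] at this
      exact this.le
    · rw [hf] at hf2
      exact hf2
  choose! A b hA hb using hsep
  set T : Finset (Fin d → ℤ) := hfin.toFinset with hT
  -- index type
  let ι := (Fin d ⊕ Fin d) ⊕ T
  let e : ι ≃ Fin (Fintype.card ι) := Fintype.equivFin ι
  let a' : ι → Fin d → ℝ :=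
    Sum.elim (Sum.elim (fun i => Pi.single i 1) (fun i => Pi.single i (-1))) (fun z => A z.1)
  let b' : ι → ℝ :=
    Sum.elim (Sum.elim (fun _ => (N : ℝ)) (fun _ => (N : ℝ))) (fun z => b z.1)
  refine ⟨Fintype.card ι, fun j => a' (e.symm j), fun j => b' (e.symm j), ?_⟩
  intro z
  constructor
  · intro hz j
    show ∑ i, a' (e.symm j) i * (z i : ℝ) ≤ b' (e.symm j)
    generalize e.symm j = j'
    rcases j' with (i | i) | t
    · simp only [a', b', Sum.elim_inl]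
      rw [Finset.sum_eq_single i]
      · simp only [Pi.single_eq_same, one_mul]
        exact_mod_cast (hN z hz i).2
      · intro k _ hk; simp [hk]
      · simp
    · simp only [a', b', Sum.elim_inl, Sum.elim_inr]
      rw [Finset.sum_eq_single i]
      · simp only [Pi.single_eq_same]
        have : -(N : ℝ) ≤ (z i : ℝ) := by exact_mod_cast (hN z hz i).1
        linarith
      · intro k _ hk; simp [hk]
      · simp
    · have ht : t.1 ∉ X := by
        have := hfin.mem_toFinset.1 t.2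
        exact this.2
      exact hA t.1 ht z hz
  · intro h'
    have h : ∀ j' : ι, ∑ i, a' j' i * (z i : ℝ) ≤ b' j' := by
      intro j'
      have := h' (e j')
      simpa only [Equiv.symm_apply_apply] using this
    by_contra hz
    have hbox : ∀ i, -N ≤ z i ∧ z i ≤ N := by
      intro i
      constructor
      · have := h (Sum.inl (Sum.inr i))
        simp only [a', b', Sum.elim_inl, Sum.elim_inr] at this
        rw [Finset.sum_eq_single i] at this
        · simp only [Pi.single_eq_same] at this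
          have h2 : -(N : ℝ) ≤ (z i : ℝ) := by linarith
          exact_mod_cast h2
        · intro k _ hk; simp [hk]
        · simp
      · have := h (Sum.inl (Sum.inl i))
        simp only [a', b', Sum.elim_inl] at this
        rw [Finset.sum_eq_single i] at this
        · simp only [Pi.single_eq_same, one_mul] at this
          exact_mod_cast this
        · intro k _ hk; simp [hk]
        · simp
    have hzT : z ∈ T := by
      rw [hT, Set.Finite.mem_toFinset]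
      exact ⟨hbox, hz⟩
    have := h (Sum.inr ⟨z, hzT⟩)
    simp only [a', b', Sum.elim_inr] at this
    have := hb z hz
    linarith

/-! ### The sets -/

/-- the basic polytope -/
def P0 (m R B : ℤ) (v : Fin 3 → ℤ) : Prop :=
  0 ≤ v 0 ∧ -B ≤ v 1 ∧ 0 ≤ v 2 ∧ v 2 ≤ 3 ∧ ∀ i : ℤ, 1 ≤ i → i ≤ m → i * v 0 + v 1 ≤ i ^ 2 * R

/-- a point at level one above facet `i` -/
def pt (R i α β : ℤ) : Fin 3 → ℤ := ![2 * i * R + α, -i ^ 2 * R + 1 - i * α, 1 + β]

/-- the set: the integer points of the basic polytope, and a unit square above each facet -/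
def XX (m R B : ℤ) : Set (Fin 3 → ℤ) :=
  {v | P0 m R B v ∨ ∃ i α β : ℤ, 1 ≤ i ∧ i ≤ m ∧ 0 ≤ α ∧ α ≤ 1 ∧ 0 ≤ β ∧ β ≤ 1 ∧ v = pt R i α β}

theorem pt0 (R i α β : ℤ) : pt R i α β 0 = 2 * i * R + α := rfl
theorem pt1 (R i α β : ℤ) : pt R i α β 1 = -i ^ 2 * R + 1 - i * α := rfl
theorem pt2 (R i α β : ℤ) : pt R i α β 2 = 1 + β := rfl

/-- level of a point above facet `j` -/
theorem level_pt (R i j α β : ℤ) :
    j * pt R i α β 0 + pt R i α β 1 - j ^ 2 * R = 1 - (i - j) ^ 2 * R + α * (j - i) := by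
  rw [pt0, pt1]; ring

/-- off-diagonal levels are very negative -/
theorem level_neg {R i j α : ℤ} (hR : 10 ≤ R) (hij : i ≠ j) (h1 : -1 ≤ α) (h2 : α ≤ 2) :
    1 - (i - j) ^ 2 * R + α * (j - i) ≤ 3 - R := by
  have hne : i - j ≠ 0 := sub_ne_zero.2 hij
  have hd : 1 ≤ (i - j) ^ 2 := by
    have := pow_pos (abs_pos.2 hne) 2
    rw [sq_abs] at this
    omega
  have hs : α * (j - i) ≤ 2 * (i - j) ^ 2 := by
    rcases le_or_gt i j with h | h
    · have h3 : α * (j - i) ≤ 2 * (j - i) := mul_le_mul_of_nonneg_right h2 (by omega)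
      have h4 : (j - i) ≤ (i - j) ^ 2 := by
        have := Int.le_self_sq (j - i)
        calc j - i ≤ (j - i) ^ 2 := this
          _ = (i - j) ^ 2 := by ring
      linarith
    · have h3 : (-α) * (i - j) ≤ 1 * (i - j) := mul_le_mul_of_nonneg_right (by omega) (by omega)
      have h4 : (i - j) ≤ (i - j) ^ 2 := Int.le_self_sq (i - j)
      have h5 : α * (j - i) = (-α) * (i - j) := by ring
      rw [h5]
      linarith
  have h6 : (i - j) ^ 2 * (R - 2) ≥ 1 * (R - 2) := mul_le_mul_of_nonneg_right hd (by omega)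
  linarith

/-- admissible parameters -/
structure Par (m R B : ℤ) : Prop where
  hm : 1 ≤ m
  hR : R = m + 10
  hB : B = m ^ 2 * R + 2 * m + 10

theorem Par.R10 {m R B : ℤ} (h : Par m R B) : 11 ≤ R := by
  have := h.hm; have := h.hR; omega

theorem Par.sqle {m R B : ℤ} (h : Par m R B) {i : ℤ} (h1 : 1 ≤ i) (h2 : i ≤ m) :
    i ^ 2 * R ≤ m ^ 2 * R := by
  have hR := h.R10
  have : i ^ 2 ≤ m ^ 2 := pow_le_pow_left₀ (by omega) h2 2
  exact mul_le_mul_of_nonneg_right this (by omega)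

theorem Par.sqnn {m R B : ℤ} (h : Par m R B) {i : ℤ} (h1 : 1 ≤ i) :
    R ≤ i ^ 2 * R := by
  have hR := h.R10
  have : (1 : ℤ) ≤ i ^ 2 := by nlinarith
  nlinarith

/-- coordinate bounds -/
theorem bounds {m R B : ℤ} (h : Par m R B) {v : Fin 3 → ℤ} (hv : v ∈ XX m R B) :
    0 ≤ v 0 ∧ -B ≤ v 1 ∧ 0 ≤ v 2 ∧ v 2 ≤ 3 ∧ v 0 ≤ R + B + 2 * m * R ∧ v 1 ≤ R := by
  have hR := h.R10
  have hm := h.hm
  have hmR : 0 ≤ m * R := mul_nonneg (by omega) (by omega)
  have hmm : 0 ≤ m ^ 2 * R := mul_nonneg (sq_nonneg _) (by omega)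
  have hB := h.hB
  rcases hv with ⟨h0, h1, h2, h3, h4⟩ | ⟨i, α, β, hi1, hi2, ha0, ha1, hb0, hb1, rfl⟩
  · have := h4 1 le_rfl hm
    refine ⟨h0, h1, h2, h3, ?_, ?_⟩ <;> linarith
  · rw [pt0, pt1, pt2]
    have hs := h.sqle hi1 hi2
    have hs0 := h.sqnn hi1
    have hiR : 0 ≤ i * R := mul_nonneg (by omega) (by omega)
    have himR : i * R ≤ m * R := mul_le_mul_of_nonneg_right hi2 (by omega)
    have hia : i * α ≤ m := by
      calc i * α ≤ i * 1 := mul_le_mul_of_nonneg_left ha1 (by omega)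
        _ ≤ m := by omega
    have hia0 : 0 ≤ i * α := mul_nonneg (by omega) ha0
    refine ⟨?_, ?_, ?_, ?_, ?_, ?_⟩ <;> linarith

/-- the level of a point of the set above a facet -/
theorem lev {m R B : ℤ} (h : Par m R B) {v : Fin 3 → ℤ} (hv : v ∈ XX m R B) {i : ℤ}
    (hi1 : 1 ≤ i) (hi2 : i ≤ m) :
    i * v 0 + v 1 - i ^ 2 * R ≤ 0 ∨
      (i * v 0 + v 1 - i ^ 2 * R = 1 ∧ 2 * i * R ≤ v 0 ∧ v 0 ≤ 2 * i * R + 1 ∧
        1 ≤ v 2 ∧ v 2 ≤ 2) := by
  have hR := h.R10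
  rcases hv with ⟨h0, h1, h2, h3, h4⟩ | ⟨j, α, β, hj1, hj2, ha0, ha1, hb0, hb1, rfl⟩
  · left
    have := h4 i hi1 hi2
    linarith
  · by_cases hij : j = i
    · subst hij
      right
      have := level_pt R j j α β
      rw [pt0, pt1] at this
      rw [pt0, pt1, pt2]
      refine ⟨?_, ?_, ?_, ?_, ?_⟩
      · rw [this]; ring
      all_goals linarith
    · left
      rw [level_pt]
      have := level_neg (R := R) (i := j) (j := i) (α := α) (by omega) hij (by omega) (by omega)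
      linarith

/-- membership from the level description -/
theorem mem_of_level {m R B : ℤ} {v : Fin 3 → ℤ} {i : ℤ}
    (hi1 : 1 ≤ i) (hi2 : i ≤ m) (h1 : i * v 0 + v 1 - i ^ 2 * R = 1) (h2 : 2 * i * R ≤ v 0)
    (h3 : v 0 ≤ 2 * i * R + 1) (h4 : 1 ≤ v 2) (h5 : v 2 ≤ 2) : v ∈ XX m R B := by
  right
  refine ⟨i, v 0 - 2 * i * R, v 2 - 1, hi1, hi2, by linarith, by linarith, by linarith,
    by linarith, ?_⟩
  funext k
  fin_cases k
  · show v 0 = pt R i _ _ 0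
    rw [pt0]; ring
  · show v 1 = pt R i _ _ 1
    rw [pt1]; linear_combination h1
  · show v 2 = pt R i _ _ 2
    rw [pt2]; ring

/-- linear inequalities pass to the convex hull -/
theorem hull_le {X : Set (Fin 3 → ℤ)} {c0 c1 c2 u : ℝ}
    (h : ∀ y ∈ X, c0 * (y 0 : ℝ) + c1 * (y 1 : ℝ) + c2 * (y 2 : ℝ) ≤ u)
    {t : Fin 3 → ℝ} (ht : t ∈ hull X) : c0 * t 0 + c1 * t 1 + c2 * t 2 ≤ u := by
  have hconv : Convex ℝ {t : Fin 3 → ℝ | c0 * t 0 + c1 * t 1 + c2 * t 2 ≤ u} := by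
    intro x hx y hy a b ha hb hab
    simp only [Set.mem_ofPred_eq, Pi.add_apply, Pi.smul_apply, smul_eq_mul] at *
    have e1 := mul_le_mul_of_nonneg_left hx ha
    have e2 := mul_le_mul_of_nonneg_left hy hb
    have e3 : a * u + b * u = u := by rw [← add_mul, hab, one_mul]
    nlinarith
  have hsub : emb '' X ⊆ {t : Fin 3 → ℝ | c0 * t 0 + c1 * t 1 + c2 * t 2 ≤ u} := by
    rintro _ ⟨y, hy, rfl⟩
    exact h y hy
  exact convexHull_min hsub hconv ht

/-- bounds on the hull -/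
theorem hull_bounds {m R B : ℤ} (h : Par m R B) {t : Fin 3 → ℝ} (ht : t ∈ hull (XX m R B)) :
    0 ≤ t 0 ∧ -(B : ℝ) ≤ t 1 ∧ 0 ≤ t 2 ∧ t 2 ≤ 3 := by
  refine ⟨?_, ?_, ?_, ?_⟩
  · have := hull_le (X := XX m R B) (c0 := -1) (c1 := 0) (c2 := 0) (u := 0) (by
      intro y hy
      have := (bounds h hy).1
      have h' : (0 : ℝ) ≤ (y 0 : ℝ) := by exact_mod_cast this
      linarith) ht
    linarith
  · have := hull_le (X := XX m R B) (c0 := 0) (c1 := -1) (c2 := 0) (u := B) (by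
      intro y hy
      have := (bounds h hy).2.1
      have h' : -(B : ℝ) ≤ (y 1 : ℝ) := by exact_mod_cast this
      linarith) ht
    linarith
  · have := hull_le (X := XX m R B) (c0 := 0) (c1 := 0) (c2 := -1) (u := 0) (by
      intro y hy
      have := (bounds h hy).2.2.1
      have h' : (0 : ℝ) ≤ (y 2 : ℝ) := by exact_mod_cast this
      linarith) ht
    linarith
  · have := hull_le (X := XX m R B) (c0 := 0) (c1 := 0) (c2 := 1) (u := 3) (by
      intro y hy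
      have := (bounds h hy).2.2.2.1
      have h' : (y 2 : ℝ) ≤ 3 := by exact_mod_cast this
      linarith) ht
    linarith

/-- the level on the hull is at most one -/
theorem hull_level {m R B : ℤ} (h : Par m R B) {t : Fin 3 → ℝ} (ht : t ∈ hull (XX m R B))
    {i : ℤ} (hi1 : 1 ≤ i) (hi2 : i ≤ m) : (i : ℝ) * t 0 + t 1 - (i : ℝ) ^ 2 * R ≤ 1 := by
  have := hull_le (X := XX m R B) (c0 := i) (c1 := 1) (c2 := 0) (u := 1 + (i : ℝ) ^ 2 * R) (by
    intro y hy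
    have h1 : i * y 0 + y 1 - i ^ 2 * R ≤ 1 := by
      rcases lev h hy hi1 hi2 with h1 | h1
      · linarith
      · exact h1.1.le
    have h' : (i : ℝ) * (y 0 : ℝ) + y 1 - (i : ℝ) ^ 2 * R ≤ 1 := by exact_mod_cast h1
    linarith) ht
  linarith

/-- the points of the hull of level one lie in the unit square -/
theorem hull_square {m R B : ℤ} (h : Par m R B) {t : Fin 3 → ℝ} (ht : t ∈ hull (XX m R B))
    {i : ℤ} (hi1 : 1 ≤ i) (hi2 : i ≤ m) (hl : (i : ℝ) * t 0 + t 1 - (i : ℝ) ^ 2 * R = 1) :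
    2 * (i : ℝ) * R ≤ t 0 ∧ t 0 ≤ 2 * (i : ℝ) * R + 1 ∧ 1 ≤ t 2 ∧ t 2 ≤ 2 := by
  set C : ℤ := R + B + 2 * m * R with hC
  have hR := h.R10
  have hm := h.hm
  have hB := h.hB
  have hmR : 0 ≤ m * R := mul_nonneg (by omega) (by omega)
  have hmm : 0 ≤ m ^ 2 * R := mul_nonneg (sq_nonneg _) (by omega)
  have hiR : 0 ≤ i * R := mul_nonneg (by omega) (by omega)
  have himR : i * R ≤ m * R := mul_le_mul_of_nonneg_right hi2 (by omega)
  have hC0 : 0 ≤ C := by rw [hC]; linarith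
  have hC1 : 2 * i * R ≤ C := by rw [hC]; linarith
  have hC3 : 3 ≤ C := by rw [hC]; linarith
  have key : ∀ y ∈ XX m R B,
      (y 0 - 2 * i * R - 1 ≤ C * (1 - (i * y 0 + y 1 - i ^ 2 * R))) ∧
      (2 * i * R - y 0 ≤ C * (1 - (i * y 0 + y 1 - i ^ 2 * R))) ∧
      (y 2 - 2 ≤ C * (1 - (i * y 0 + y 1 - i ^ 2 * R))) ∧
      (1 - y 2 ≤ C * (1 - (i * y 0 + y 1 - i ^ 2 * R))) := by
    intro y hy
    obtain ⟨b0, b1, b2, b3, b4, b5⟩ := bounds h hy
    rcases lev h hy hi1 hi2 with h1 | ⟨h1, h2, h3, h4, h5⟩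
    · have h6 : C * 1 ≤ C * (1 - (i * y 0 + y 1 - i ^ 2 * R)) :=
        mul_le_mul_of_nonneg_left (by linarith) hC0
      refine ⟨?_, ?_, ?_, ?_⟩ <;> linarith
    · rw [h1]
      refine ⟨?_, ?_, ?_, ?_⟩ <;> linarith
  have kr : ∀ y ∈ XX m R B,
      ((y 0 : ℝ) - 2 * i * R - 1 ≤ C * (1 - (i * y 0 + y 1 - (i : ℝ) ^ 2 * R))) ∧
      (2 * (i : ℝ) * R - y 0 ≤ C * (1 - (i * y 0 + y 1 - (i : ℝ) ^ 2 * R))) ∧
      ((y 2 : ℝ) - 2 ≤ C * (1 - (i * y 0 + y 1 - (i : ℝ) ^ 2 * R))) ∧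
      (1 - (y 2 : ℝ) ≤ C * (1 - (i * y 0 + y 1 - (i : ℝ) ^ 2 * R))) := by
    intro y hy
    obtain ⟨k1, k2, k3, k4⟩ := key y hy
    refine ⟨?_, ?_, ?_, ?_⟩
    · exact_mod_cast k1
    · exact_mod_cast k2
    · exact_mod_cast k3
    · exact_mod_cast k4
  refine ⟨?_, ?_, ?_, ?_⟩
  · have := hull_le (X := XX m R B) (c0 := -1 + C * i) (c1 := C) (c2 := 0)
      (u := -(2 * (i : ℝ) * R) + C + C * (i : ℝ) ^ 2 * R) (by
        intro y hy
        have := (kr y hy).2.1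
        linarith) ht
    have e : (C : ℝ) * ((i : ℝ) * t 0 + t 1 - (i : ℝ) ^ 2 * R) = C := by rw [hl, mul_one]
    linarith
  · have := hull_le (X := XX m R B) (c0 := 1 + C * i) (c1 := C) (c2 := 0)
      (u := (2 * (i : ℝ) * R + 1) + C + C * (i : ℝ) ^ 2 * R) (by
        intro y hy
        have := (kr y hy).1
        linarith) ht
    have e : (C : ℝ) * ((i : ℝ) * t 0 + t 1 - (i : ℝ) ^ 2 * R) = C := by rw [hl, mul_one]
    linarith
  · have := hull_le (X := XX m R B) (c0 := C * i) (c1 := C) (c2 := -1)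
      (u := -1 + C + C * (i : ℝ) ^ 2 * R) (by
        intro y hy
        have := (kr y hy).2.2.2
        linarith) ht
    have e : (C : ℝ) * ((i : ℝ) * t 0 + t 1 - (i : ℝ) ^ 2 * R) = C := by rw [hl, mul_one]
    linarith
  · have := hull_le (X := XX m R B) (c0 := C * i) (c1 := C) (c2 := 1)
      (u := 2 + C + C * (i : ℝ) ^ 2 * R) (by
        intro y hy
        have := (kr y hy).2.2.1
        linarith) ht
    have e : (C : ℝ) * ((i : ℝ) * t 0 + t 1 - (i : ℝ) ^ 2 * R) = C := by rw [hl, mul_one]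
    linarith

theorem XX_latticeConvex {m R B : ℤ} (h : Par m R B) : LatticeConvex (XX m R B) := by
  intro z hz
  obtain ⟨b0, b1, b2, b3⟩ := hull_bounds h hz
  simp only [emb] at b0 b1 b2 b3
  by_cases hall : ∀ i : ℤ, 1 ≤ i → i ≤ m → i * z 0 + z 1 ≤ i ^ 2 * R
  · left
    refine ⟨by exact_mod_cast b0, by exact_mod_cast b1, by exact_mod_cast b2,
      by exact_mod_cast b3, hall⟩
  · push Not at hall
    obtain ⟨i, hi1, hi2, hi3⟩ := hall
    have hl := hull_level h hz hi1 hi2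
    have hl' : i * z 0 + z 1 - i ^ 2 * R ≤ 1 := by
      have : (i : ℝ) * (z 0 : ℝ) + z 1 - (i : ℝ) ^ 2 * R ≤ 1 := hl
      exact_mod_cast this
    have hl2 : i * z 0 + z 1 - i ^ 2 * R = 1 := by linarith
    have hl3 : (i : ℝ) * emb z 0 + emb z 1 - (i : ℝ) ^ 2 * R = 1 := by
      show (i : ℝ) * (z 0 : ℝ) + (z 1 : ℝ) - (i : ℝ) ^ 2 * R = 1
      exact_mod_cast hl2
    obtain ⟨s1, s2, s3, s4⟩ := hull_square h hz hi1 hi2 hl3
    apply mem_of_level hi1 hi2 hl2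
    · have : 2 * (i : ℝ) * R ≤ (z 0 : ℝ) := s1
      exact_mod_cast this
    · have : (z 0 : ℝ) ≤ 2 * (i : ℝ) * R + 1 := s2
      exact_mod_cast this
    · have : 1 ≤ (z 2 : ℝ) := s3
      exact_mod_cast this
    · have : (z 2 : ℝ) ≤ 2 := s4
      exact_mod_cast this

theorem XX_finite {m R B : ℤ} (h : Par m R B) : (XX m R B).Finite := by
  apply Set.Finite.subset (Set.finite_Icc (![0, -B, 0] : Fin 3 → ℤ)
    (![R + B + 2 * m * R, R, 3] : Fin 3 → ℤ))
  intro v hv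
  obtain ⟨b0, b1, b2, b3, b4, b5⟩ := bounds h hv
  constructor
  · intro k
    fin_cases k
    · exact b0
    · exact b1
    · exact b2
  · intro k
    fin_cases k
    · exact b4
    · exact b5
    · exact b3

theorem XX_unit {m R B : ℤ} (h : Par m R B) {v : Fin 3 → ℤ} (h0 : 0 ≤ v 0) (h0' : v 0 ≤ 1)
    (h1 : 0 ≤ v 1) (h1' : v 1 ≤ 1) (h2 : 0 ≤ v 2) (h2' : v 2 ≤ 1) : v ∈ XX m R B := by
  left
  have hR := h.R10
  have hm := h.hm
  have hB := h.hB
  have hmm : 0 ≤ m ^ 2 * R := mul_nonneg (sq_nonneg _) (by omega)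
  refine ⟨h0, by linarith, h2, by linarith, ?_⟩
  intro i hi1 hi2
  have e1 : i * v 0 ≤ i * 1 := mul_le_mul_of_nonneg_left h0' (by omega)
  have e2 : i ≤ i ^ 2 := Int.le_self_sq i
  have e3 : i ^ 2 * 11 ≤ i ^ 2 * R := mul_le_mul_of_nonneg_left hR (sq_nonneg _)
  linarith

theorem XX_fullDim {m R B : ℤ} (h : Par m R B) : FullDim (XX m R B) := by
  have h0 : (0 : Fin 3 → ℤ) ∈ XX m R B := XX_unit h (by simp) (by simp) (by simp) (by simp)
    (by simp) (by simp)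
  have hs : ∀ i : Fin 3, (Pi.single i 1 : Fin 3 → ℤ) ∈ XX m R B := by
    intro i
    apply XX_unit h <;> fin_cases i <;> simp
  have hmem0 : (0 : Fin 3 → ℝ) ∈ emb '' XX m R B := ⟨0, h0, by funext k; simp [emb]⟩
  have hmem : ∀ i : Fin 3, (Pi.single i 1 : Fin 3 → ℝ) ∈ emb '' XX m R B := by
    intro i
    refine ⟨Pi.single i 1, hs i, ?_⟩
    funext k
    by_cases hk : k = i
    · subst hk; simp [emb]
    · simp [emb, hk]
  unfold FullDim
  have hins : emb '' XX m R B = insert 0 (emb '' XX m R B) := (Set.insert_eq_of_mem hmem0).symm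
  rw [hins]
  apply SetLike.coe_injective
  rw [affineSpan_insert_zero]
  have : Submodule.span ℝ (emb '' XX m R B) = ⊤ := by
    rw [eq_top_iff]
    intro x _
    rw [pi_eq_sum_univ' x]
    apply Submodule.sum_mem
    intro i _
    apply Submodule.smul_mem
    apply Submodule.subset_span
    convert hmem i using 1
  rw [this]
  simp

/-! ### The upper bound for hiding sets -/

/-- what it means for a point to be outside, next to a facet, or hidden -/
theorem hidden_pair {m R B : ℤ} (h : Par m R B) {p q : Fin 3 → ℤ} (hp : p ∉ XX m R B)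
    (hq : q ∉ XX m R B) (hpq : (segment ℝ (emb p) (emb q) ∩ hull (XX m R B)).Nonempty) :
    ∃ s t : ℝ, 0 < s ∧ 0 < t ∧ s + t = 1 ∧ s • emb p + t • emb q ∈ hull (XX m R B) := by
  obtain ⟨y, ⟨s, t, hs, ht, hst, rfl⟩, hy⟩ := hpq
  refine ⟨s, t, ?_, ?_, hst, hy⟩
  · rcases hs.eq_or_lt with h0 | h0
    · exfalso
      subst h0
      have ht1 : t = 1 := by linarith
      subst ht1
      rw [zero_smul, one_smul, zero_add] at hy
      exact hq (XX_latticeConvex h q hy)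
    · exact h0
  · rcases ht.eq_or_lt with h0 | h0
    · exfalso
      subst h0
      have ht1 : s = 1 := by linarith
      subst ht1
      rw [zero_smul, one_smul, add_zero] at hy
      exact hp (XX_latticeConvex h p hy)
    · exact h0

theorem comb_apply (s t : ℝ) (p q : Fin 3 → ℤ) (k : Fin 3) :
    (s • emb p + t • emb q) k = s * (p k : ℝ) + t * (q k : ℝ) := rfl

/-- two hidden points do not violate the same basic inequality -/
theorem hidden_basic {m R B : ℤ} (h : Par m R B) {p q : Fin 3 → ℤ} (hp : p ∉ XX m R B)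
    (hq : q ∉ XX m R B) (hpq : (segment ℝ (emb p) (emb q) ∩ hull (XX m R B)).Nonempty) :
    ¬ (p 0 < 0 ∧ q 0 < 0) ∧ ¬ (p 1 < -B ∧ q 1 < -B) ∧ ¬ (p 2 < 0 ∧ q 2 < 0) ∧
      ¬ (3 < p 2 ∧ 3 < q 2) := by
  obtain ⟨s, t, hs, ht, hst, hy⟩ := hidden_pair h hp hq hpq
  obtain ⟨b0, b1, b2, b3⟩ := hull_bounds h hy
  rw [comb_apply] at b0 b1 b2 b3
  refine ⟨?_, ?_, ?_, ?_⟩
  · rintro ⟨h1, h2⟩
    have h1' : (p 0 : ℝ) < 0 := by exact_mod_cast h1
    have h2' : (q 0 : ℝ) < 0 := by exact_mod_cast h2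
    have := mul_neg_of_pos_of_neg hs h1'
    have := mul_neg_of_pos_of_neg ht h2'
    linarith
  · rintro ⟨h1, h2⟩
    have h1' : (p 1 : ℝ) < -B := by exact_mod_cast h1
    have h2' : (q 1 : ℝ) < -B := by exact_mod_cast h2
    have e1 := mul_lt_mul_of_pos_left h1' hs
    have e2 := mul_lt_mul_of_pos_left h2' ht
    have e3 : s * (-(B : ℝ)) + t * (-(B : ℝ)) = -B := by rw [← add_mul, hst, one_mul]
    linarith
  · rintro ⟨h1, h2⟩
    have h1' : (p 2 : ℝ) < 0 := by exact_mod_cast h1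
    have h2' : (q 2 : ℝ) < 0 := by exact_mod_cast h2
    have := mul_neg_of_pos_of_neg hs h1'
    have := mul_neg_of_pos_of_neg ht h2'
    linarith
  · rintro ⟨h1, h2⟩
    have h1' : (3 : ℝ) < p 2 := by exact_mod_cast h1
    have h2' : (3 : ℝ) < q 2 := by exact_mod_cast h2
    have e1 := mul_lt_mul_of_pos_left h1' hs
    have e2 := mul_lt_mul_of_pos_left h2' ht
    linarith

/-- two hidden points above the same facet -/
theorem hidden_facet {m R B : ℤ} (h : Par m R B) {p q : Fin 3 → ℤ} (hp : p ∉ XX m R B)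
    (hq : q ∉ XX m R B) (hpq : (segment ℝ (emb p) (emb q) ∩ hull (XX m R B)).Nonempty)
    {i : ℤ} (hi1 : 1 ≤ i) (hi2 : i ≤ m) (hpi : 1 ≤ i * p 0 + p 1 - i ^ 2 * R)
    (hqi : 1 ≤ i * q 0 + q 1 - i ^ 2 * R) :
    i * p 0 + p 1 - i ^ 2 * R = 1 ∧ i * q 0 + q 1 - i ^ 2 * R = 1 ∧
      ¬ (2 * i * R + 1 ≤ p 0 ∧ 2 * i * R + 2 ≤ q 0) ∧
      ¬ (2 * i * R + 2 ≤ p 0 ∧ 2 * i * R + 1 ≤ q 0) ∧
      ¬ (p 0 ≤ 2 * i * R ∧ q 0 ≤ 2 * i * R - 1) ∧
      ¬ (p 0 ≤ 2 * i * R - 1 ∧ q 0 ≤ 2 * i * R) ∧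
      ¬ (2 ≤ p 2 ∧ 3 ≤ q 2) ∧ ¬ (3 ≤ p 2 ∧ 2 ≤ q 2) ∧
      ¬ (p 2 ≤ 1 ∧ q 2 ≤ 0) ∧ ¬ (p 2 ≤ 0 ∧ q 2 ≤ 1) := by
  obtain ⟨s, t, hs, ht, hst, hy⟩ := hidden_pair h hp hq hpq
  have hl := hull_level h hy hi1 hi2
  rw [comb_apply, comb_apply] at hl
  have hp' : (1 : ℝ) ≤ i * p 0 + p 1 - (i : ℝ) ^ 2 * R := by exact_mod_cast hpi
  have hq' : (1 : ℝ) ≤ i * q 0 + q 1 - (i : ℝ) ^ 2 * R := by exact_mod_cast hqi
  have es := mul_le_mul_of_nonneg_left hp' hs.le
  have et := mul_le_mul_of_nonneg_left hq' ht.le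
  have ht' : t = 1 - s := by linarith
  have hl2 : (i : ℝ) * (s * p 0 + t * q 0) + (s * p 1 + t * q 1) - (i : ℝ) ^ 2 * R =
      s * (i * p 0 + p 1 - (i : ℝ) ^ 2 * R) + t * (i * q 0 + q 1 - (i : ℝ) ^ 2 * R) := by
    rw [ht']; ring
  have hl3 : (i : ℝ) * (s * p 0 + t * q 0) + (s * p 1 + t * q 1) - (i : ℝ) ^ 2 * R = 1 := by
    linarith
  have hsq := hull_square h hy hi1 hi2 (by rw [comb_apply, comb_apply]; exact hl3)
  rw [comb_apply, comb_apply] at hsq
  obtain ⟨q1, q2, q3, q4⟩ := hsq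
  have hp1 : i * p 0 + p 1 - i ^ 2 * R = 1 := by
    by_contra hne
    have h2 : 2 ≤ i * p 0 + p 1 - i ^ 2 * R := by omega
    have h2' : (2 : ℝ) ≤ i * p 0 + p 1 - (i : ℝ) ^ 2 * R := by exact_mod_cast h2
    have es' := mul_le_mul_of_nonneg_left h2' hs.le
    linarith
  have hq1 : i * q 0 + q 1 - i ^ 2 * R = 1 := by
    by_contra hne
    have h2 : 2 ≤ i * q 0 + q 1 - i ^ 2 * R := by omega
    have h2' : (2 : ℝ) ≤ i * q 0 + q 1 - (i : ℝ) ^ 2 * R := by exact_mod_cast h2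
    have es' := mul_le_mul_of_nonneg_left h2' ht.le
    linarith
  have cmp : ∀ (u v : ℤ) (c e : ℤ), c ≤ u → e ≤ v → s * (c : ℝ) + t * e ≤ s * u + t * v := by
    intro u v c e h1 h2
    have h1' : (c : ℝ) ≤ u := by exact_mod_cast h1
    have h2' : (e : ℝ) ≤ v := by exact_mod_cast h2
    have := mul_le_mul_of_nonneg_left h1' hs.le
    have := mul_le_mul_of_nonneg_left h2' ht.le
    linarith
  have e3 : s * (2 * (i : ℝ) * R) + t * (2 * (i : ℝ) * R) = 2 * (i : ℝ) * R := by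
    rw [← add_mul, hst, one_mul]
  refine ⟨hp1, hq1, ?_, ?_, ?_, ?_, ?_, ?_, ?_, ?_⟩
  · rintro ⟨h1, h2⟩
    have := cmp _ _ _ _ h1 h2
    push_cast at this
    linarith
  · rintro ⟨h1, h2⟩
    have := cmp _ _ _ _ h1 h2
    push_cast at this
    linarith
  · rintro ⟨h1, h2⟩
    have := cmp _ _ _ _ h1 h2
    push_cast at this
    linarith
  · rintro ⟨h1, h2⟩
    have := cmp _ _ _ _ h1 h2
    push_cast at this
    linarith
  · rintro ⟨h1, h2⟩
    have := cmp _ _ _ _ h1 h2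
    push_cast at this
    linarith
  · rintro ⟨h1, h2⟩
    have := cmp _ _ _ _ h1 h2
    push_cast at this
    linarith
  · rintro ⟨h1, h2⟩
    have := cmp _ _ _ _ h1 h2
    push_cast at this
    linarith
  · rintro ⟨h1, h2⟩
    have := cmp _ _ _ _ h1 h2
    push_cast at this
    linarith

/-- the relation between one coordinate of two hidden points -/
def Hd (M x y : ℤ) : Prop :=
  ¬ (M + 1 ≤ x ∧ M + 2 ≤ y) ∧ ¬ (M + 2 ≤ x ∧ M + 1 ≤ y) ∧ ¬ (x ≤ M ∧ y ≤ M - 1) ∧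
    ¬ (x ≤ M - 1 ∧ y ≤ M)

theorem Hd.symm {M x y : ℤ} (h : Hd M x y) : Hd M y x :=
  ⟨fun t => h.2.1 ⟨t.2, t.1⟩, fun t => h.1 ⟨t.2, t.1⟩, fun t => h.2.2.2 ⟨t.2, t.1⟩,
    fun t => h.2.2.1 ⟨t.2, t.1⟩⟩

theorem Hd.big {M x y : ℤ} (h : Hd M x y) (hx : M + 2 ≤ x) : y ≤ M := by
  by_contra hy
  exact h.2.1 ⟨hx, by linarith [not_le.1 hy, Int.add_one_le_iff.2 (not_le.1 hy)]⟩

theorem Hd.small {M x y : ℤ} (h : Hd M x y) (hx : x ≤ M - 1) : M + 1 ≤ y := by
  by_contra hy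
  exact h.2.2.2 ⟨hx, Int.lt_add_one_iff.1 (not_le.1 hy)⟩

theorem Hd.big3 {M x y z : ℤ} (hxy : Hd M x y) (hxz : Hd M x z) (hyz : Hd M y z)
    (hx : M + 2 ≤ x) : y = M ∧ z = M := by
  have h1 := hxy.big hx
  have h2 := hxz.big hx
  have h3 : ¬ (y ≤ M - 1) := fun hy => by
    have := hyz.small hy
    linarith
  have h4 : ¬ (z ≤ M - 1) := fun hy => by
    have := hyz.symm.small hy
    linarith
  constructor
  · clear hxy hxz hyz
    omega
  · clear hxy hxz hyz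
    omega

theorem Hd.small3 {M x y z : ℤ} (hxy : Hd M x y) (hxz : Hd M x z) (hyz : Hd M y z)
    (hx : x ≤ M - 1) : y = M + 1 ∧ z = M + 1 := by
  have h1 := hxy.small hx
  have h2 := hxz.small hx
  have h3 : ¬ (M + 2 ≤ y) := fun hy => by
    have := hyz.big hy
    linarith
  have h4 : ¬ (M + 2 ≤ z) := fun hy => by
    have := hyz.symm.big hy
    linarith
  constructor
  · clear hxy hxz hyz
    omega
  · clear hxy hxz hyz
    omega

theorem outside {M x y : ℤ} (h : ¬ (M ≤ x ∧ x ≤ M + 1 ∧ 1 ≤ y ∧ y ≤ 2)) :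
    x ≤ M - 1 ∨ M + 2 ≤ x ∨ y ≤ 0 ∨ 3 ≤ y := by omega

theorem three_points {M a0 b0 c0 a2 b2 c2 : ℤ} (x1 : Hd M a0 b0) (x2 : Hd M a0 c0)
    (x3 : Hd M b0 c0) (y1 : Hd 1 a2 b2) (y2 : Hd 1 a2 c2) (y3 : Hd 1 b2 c2)
    (na : ¬ (M ≤ a0 ∧ a0 ≤ M + 1 ∧ 1 ≤ a2 ∧ a2 ≤ 2))
    (nb : ¬ (M ≤ b0 ∧ b0 ≤ M + 1 ∧ 1 ≤ b2 ∧ b2 ≤ 2))
    (nc : ¬ (M ≤ c0 ∧ c0 ≤ M + 1 ∧ 1 ≤ c2 ∧ c2 ≤ 2)) : False := by
  -- the third coordinate of `b` cannot be out of range when `c 0` is in range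
  have by1 : 3 ≤ b2 → c2 = 1 := fun hb => (Hd.big3 y1.symm y3 y2 hb).2
  have by2 : b2 ≤ 0 → c2 = 2 := fun hb => (Hd.small3 y1.symm y3 y2 hb).2
  have bx1 : M + 2 ≤ b0 → c0 = M := fun hb => (Hd.big3 x1.symm x3 x2 hb).2
  have bx2 : b0 ≤ M - 1 → c0 = M + 1 := fun hb => (Hd.small3 x1.symm x3 x2 hb).2
  have ob := outside nb
  rcases outside na with h | h | h | h
  · obtain ⟨hb, hc⟩ := Hd.small3 x1 x2 x3 h
    rcases ob with g | g | g | g
    · linarith
    · linarith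
    · exact nc ⟨by linarith, by linarith, by linarith [by2 g], by linarith [by2 g]⟩
    · exact nc ⟨by linarith, by linarith, by linarith [by1 g], by linarith [by1 g]⟩
  · obtain ⟨hb, hc⟩ := Hd.big3 x1 x2 x3 h
    rcases ob with g | g | g | g
    · linarith
    · linarith
    · exact nc ⟨by linarith, by linarith, by linarith [by2 g], by linarith [by2 g]⟩
    · exact nc ⟨by linarith, by linarith, by linarith [by1 g], by linarith [by1 g]⟩
  · obtain ⟨hb, hc⟩ := Hd.small3 y1 y2 y3 h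
    rcases ob with g | g | g | g
    · exact nc ⟨by linarith [bx2 g], by linarith [bx2 g], by linarith, by linarith⟩
    · exact nc ⟨by linarith [bx1 g], by linarith [bx1 g], by linarith, by linarith⟩
    · linarith
    · linarith
  · obtain ⟨hb, hc⟩ := Hd.big3 y1 y2 y3 h
    rcases ob with g | g | g | g
    · exact nc ⟨by linarith [bx2 g], by linarith [bx2 g], by linarith, by linarith⟩
    · exact nc ⟨by linarith [bx1 g], by linarith [bx1 g], by linarith, by linarith⟩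
    · linarith
    · linarith

theorem hiding_card {m R B : ℤ} (h : Par m R B) {H : Finset (Fin 3 → ℤ)}
    (hH : Hiding (XX m R B) H) : (H.card : ℤ) ≤ 2 * m + 4 := by
  classical
  have hsub : H ⊆ ((((H.filter (fun p => p 0 < 0)) ∪ (H.filter (fun p => p 1 < -B))) ∪
      (H.filter (fun p => p 2 < 0))) ∪ (H.filter (fun p => 3 < p 2))) ∪
      (Finset.Icc 1 m).biUnion (fun i => H.filter (fun p => 1 ≤ i * p 0 + p 1 - i ^ 2 * R)) := by
    intro p hp
    simp only [Finset.mem_union, Finset.mem_filter, Finset.mem_biUnion, Finset.mem_Icc]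
    by_contra hcon
    push Not at hcon
    obtain ⟨⟨⟨⟨c1, c2⟩, c3⟩, c4⟩, c5⟩ := hcon
    apply hH.1 p hp
    left
    refine ⟨c1 hp, c2 hp, c3 hp, c4 hp, ?_⟩
    intro i hi1 hi2
    have := c5 i ⟨hi1, hi2⟩ hp
    linarith
  have c1 : (H.filter (fun p => p 0 < 0)).card ≤ 1 := by
    rw [Finset.card_le_one]
    intro a ha b hb
    rw [Finset.mem_filter] at ha hb
    by_contra hab
    exact (hidden_basic h (hH.1 a ha.1) (hH.1 b hb.1) (hH.2 a ha.1 b hb.1 hab)).1 ⟨ha.2, hb.2⟩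
  have c2 : (H.filter (fun p => p 1 < -B)).card ≤ 1 := by
    rw [Finset.card_le_one]
    intro a ha b hb
    rw [Finset.mem_filter] at ha hb
    by_contra hab
    exact (hidden_basic h (hH.1 a ha.1) (hH.1 b hb.1) (hH.2 a ha.1 b hb.1 hab)).2.1
      ⟨ha.2, hb.2⟩
  have c3 : (H.filter (fun p => p 2 < 0)).card ≤ 1 := by
    rw [Finset.card_le_one]
    intro a ha b hb
    rw [Finset.mem_filter] at ha hb
    by_contra hab
    exact (hidden_basic h (hH.1 a ha.1) (hH.1 b hb.1) (hH.2 a ha.1 b hb.1 hab)).2.2.1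
      ⟨ha.2, hb.2⟩
  have c4 : (H.filter (fun p => 3 < p 2)).card ≤ 1 := by
    rw [Finset.card_le_one]
    intro a ha b hb
    rw [Finset.mem_filter] at ha hb
    by_contra hab
    exact (hidden_basic h (hH.1 a ha.1) (hH.1 b hb.1) (hH.2 a ha.1 b hb.1 hab)).2.2.2
      ⟨ha.2, hb.2⟩
  have c5 : ∀ i ∈ Finset.Icc 1 m,
      (H.filter (fun p => 1 ≤ i * p 0 + p 1 - i ^ 2 * R)).card ≤ 2 := by
    intro i hi
    obtain ⟨hi1, hi2⟩ := Finset.mem_Icc.1 hi
    by_contra hcon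
    push Not at hcon
    obtain ⟨a, ha, b, hb, c, hc, hab, hac, hbc⟩ := Finset.two_lt_card.1 hcon
    rw [Finset.mem_filter] at ha hb hc
    have ab := hidden_facet h (hH.1 a ha.1) (hH.1 b hb.1) (hH.2 a ha.1 b hb.1 hab) hi1 hi2
      ha.2 hb.2
    have ac := hidden_facet h (hH.1 a ha.1) (hH.1 c hc.1) (hH.2 a ha.1 c hc.1 hac) hi1 hi2
      ha.2 hc.2
    have bc := hidden_facet h (hH.1 b hb.1) (hH.1 c hc.1) (hH.2 b hb.1 c hc.1 hbc) hi1 hi2
      hb.2 hc.2
    have na : ¬ (2 * i * R ≤ a 0 ∧ a 0 ≤ 2 * i * R + 1 ∧ 1 ≤ a 2 ∧ a 2 ≤ 2) :=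
      fun hx => hH.1 a ha.1 (mem_of_level hi1 hi2 ab.1 hx.1 hx.2.1 hx.2.2.1 hx.2.2.2)
    have nb : ¬ (2 * i * R ≤ b 0 ∧ b 0 ≤ 2 * i * R + 1 ∧ 1 ≤ b 2 ∧ b 2 ≤ 2) :=
      fun hx => hH.1 b hb.1 (mem_of_level hi1 hi2 ab.2.1 hx.1 hx.2.1 hx.2.2.1 hx.2.2.2)
    have nc : ¬ (2 * i * R ≤ c 0 ∧ c 0 ≤ 2 * i * R + 1 ∧ 1 ≤ c 2 ∧ c 2 ≤ 2) :=
      fun hx => hH.1 c hc.1 (mem_of_level hi1 hi2 ac.2.1 hx.1 hx.2.1 hx.2.2.1 hx.2.2.2)
    have x1 : Hd (2 * i * R) (a 0) (b 0) := ⟨ab.2.2.1, ab.2.2.2.1, ab.2.2.2.2.1, ab.2.2.2.2.2.1⟩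
    have x2 : Hd (2 * i * R) (a 0) (c 0) := ⟨ac.2.2.1, ac.2.2.2.1, ac.2.2.2.2.1, ac.2.2.2.2.2.1⟩
    have x3 : Hd (2 * i * R) (b 0) (c 0) := ⟨bc.2.2.1, bc.2.2.2.1, bc.2.2.2.2.1, bc.2.2.2.2.2.1⟩
    have y1 : Hd 1 (a 2) (b 2) := ab.2.2.2.2.2.2
    have y2 : Hd 1 (a 2) (c 2) := ac.2.2.2.2.2.2
    have y3 : Hd 1 (b 2) (c 2) := bc.2.2.2.2.2.2
    exact three_points x1 x2 x3 y1 y2 y3 na nb nc
  have h1 := Finset.card_le_card hsub
  have h2 := Finset.card_union_le ((((H.filter (fun p => p 0 < 0)) ∪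
      (H.filter (fun p => p 1 < -B))) ∪
      (H.filter (fun p => p 2 < 0))) ∪ (H.filter (fun p => 3 < p 2)))
      ((Finset.Icc 1 m).biUnion (fun i => H.filter (fun p => 1 ≤ i * p 0 + p 1 - i ^ 2 * R)))
  have h3 := Finset.card_union_le (((H.filter (fun p => p 0 < 0)) ∪
      (H.filter (fun p => p 1 < -B))) ∪ (H.filter (fun p => p 2 < 0)))
      (H.filter (fun p => 3 < p 2))
  have h4 := Finset.card_union_le ((H.filter (fun p => p 0 < 0)) ∪
      (H.filter (fun p => p 1 < -B))) (H.filter (fun p => p 2 < 0))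
  have h5 := Finset.card_union_le (H.filter (fun p => p 0 < 0)) (H.filter (fun p => p 1 < -B))
  have h6 : ((Finset.Icc 1 m).biUnion
      (fun i => H.filter (fun p => 1 ≤ i * p 0 + p 1 - i ^ 2 * R))).card ≤
      (Finset.Icc 1 m).card * 2 := Finset.card_biUnion_le_card_mul _ _ _ c5
  rw [Int.card_Icc] at h6
  have hm := h.hm
  omega

/-! ### The lower bound for relaxations -/

/-- the eight directions -/
def Out : Finset (ℤ × ℤ) :=
  {(2, 0), (2, 1), (1, 2), (0, 2), (-1, 1), (-1, 0), (0, -1), (1, -1)}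

theorem Out_bounds {w : ℤ × ℤ} (hw : w ∈ Out) :
    -1 ≤ w.1 ∧ w.1 ≤ 2 ∧ -1 ≤ w.2 ∧ w.2 ≤ 2 ∧
      ¬ (0 ≤ w.1 ∧ w.1 ≤ 1 ∧ 0 ≤ w.2 ∧ w.2 ≤ 1) := by
  simp only [Out, Finset.mem_insert, Finset.mem_singleton] at hw
  rcases hw with h | h | h | h | h | h | h | h <;> subst h <;> decide

theorem Out_not_mem {m R B : ℤ} (h : Par m R B) {i : ℤ} (hi1 : 1 ≤ i) (hi2 : i ≤ m)
    {w : ℤ × ℤ} (hw : w ∈ Out) : pt R i w.1 w.2 ∉ XX m R B := by
  intro hmem
  have hb := Out_bounds hw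
  rcases lev h hmem hi1 hi2 with h1 | ⟨h1, h2, h3, h4, h5⟩
  · rw [level_pt] at h1
    have : 1 - (i - i) ^ 2 * R + w.1 * (i - i) = 1 := by ring
    omega
  · rw [pt0] at h2 h3
    rw [pt2] at h4 h5
    apply hb.2.2.2.2
    refine ⟨?_, ?_, ?_, ?_⟩ <;> linarith

/-- the sum of two outer points of different facets is a sum of two points of the set -/
theorem half {m R B : ℤ} (h : Par m R B) {i j : ℤ} (hi1 : 1 ≤ i) (hi2 : i ≤ m) (hj1 : 1 ≤ j)
    (hj2 : j ≤ m) (hij : i ≠ j) {w w' : ℤ × ℤ} (hw : w ∈ Out) (hw' : w' ∈ Out) :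
    ∃ u v : Fin 3 → ℤ, u ∈ XX m R B ∧ v ∈ XX m R B ∧
      ∀ k, pt R i w.1 w.2 k + pt R j w'.1 w'.2 k = u k + v k := by
  obtain ⟨a1, a2, a3, a4, -⟩ := Out_bounds hw
  obtain ⟨b1, b2, b3, b4, -⟩ := Out_bounds hw'
  have hR := h.R10
  have hRm := h.hR
  have hm := h.hm
  have hB := h.hB
  set p := pt R i w.1 w.2 with hp
  set q := pt R j w'.1 w'.2 with hq
  have lp : ∀ l : ℤ, l * p 0 + p 1 - l ^ 2 * R = 1 - (i - l) ^ 2 * R + w.1 * (l - i) :=
    fun l => level_pt R i l w.1 w.2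
  have lq : ∀ l : ℤ, l * q 0 + q 1 - l ^ 2 * R = 1 - (j - l) ^ 2 * R + w'.1 * (l - j) :=
    fun l => level_pt R j l w'.1 w'.2
  have hiR : 1 * R ≤ i * R := mul_le_mul_of_nonneg_right hi1 (by omega)
  have hjR : 1 * R ≤ j * R := mul_le_mul_of_nonneg_right hj1 (by omega)
  have p0 : 2 ≤ p 0 := by rw [hp, pt0]; linarith
  have q0 : 2 ≤ q 0 := by rw [hq, pt0]; linarith
  have p1 : -B ≤ p 1 - 1 := by
    have e1 : i * w.1 ≤ i * 2 := mul_le_mul_of_nonneg_left a2 (by omega)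
    have e2 := h.sqle hi1 hi2
    rw [hp, pt1]
    linarith
  have q1 : -B ≤ q 1 - 1 := by
    have e1 : j * w'.1 ≤ j * 2 := mul_le_mul_of_nonneg_left b2 (by omega)
    have e2 := h.sqle hj1 hj2
    rw [hq, pt1]
    linarith
  have p2 : 0 ≤ p 2 ∧ p 2 ≤ 3 := by rw [hp, pt2]; omega
  have q2 : 0 ≤ q 2 ∧ q 2 ≤ 3 := by rw [hq, pt2]; omega
  have hsum : ∀ l : ℤ, 1 ≤ l → l ≤ m →
      (l * p 0 + p 1) + (l * q 0 + q 1) ≤ 2 * (l ^ 2 * R) + (4 - R) := by
    intro l hl1 hl2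
    have e1 := lp l
    have e2 := lq l
    by_cases hil : i = l
    · have hjl : j ≠ l := fun hx => hij (hil.trans hx.symm)
      have e3 := level_neg (R := R) (i := j) (j := l) (α := w'.1) (by omega) hjl b1 b2
      have e4 : 1 - (i - l) ^ 2 * R + w.1 * (l - i) = 1 := by subst hil; ring
      linarith
    · have e3 := level_neg (R := R) (i := i) (j := l) (α := w.1) (by omega) hil a1 a2
      by_cases hjl : j = l
      · have e4 : 1 - (j - l) ^ 2 * R + w'.1 * (l - j) = 1 := by subst hjl; ring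
        linarith
      · have e4 := level_neg (R := R) (i := j) (j := l) (α := w'.1) (by omega) hjl b1 b2
        linarith
  refine ⟨fun k => (p k + q k) / 2, fun k => p k + q k - (p k + q k) / 2, ?_, ?_, ?_⟩
  · left
    refine ⟨?_, ?_, ?_, ?_, ?_⟩
    · show 0 ≤ (p 0 + q 0) / 2
      omega
    · show -B ≤ (p 1 + q 1) / 2
      omega
    · show 0 ≤ (p 2 + q 2) / 2
      omega
    · show (p 2 + q 2) / 2 ≤ 3
      omega
    · intro l hl1 hl2
      show l * ((p 0 + q 0) / 2) + (p 1 + q 1) / 2 ≤ l ^ 2 * R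
      have e1 := hsum l hl1 hl2
      have e2 : 2 * ((p 0 + q 0) / 2) ≤ p 0 + q 0 := by omega
      have e3 : 2 * ((p 1 + q 1) / 2) ≤ p 1 + q 1 := by omega
      have e4 := mul_le_mul_of_nonneg_left e2 (by omega : (0 : ℤ) ≤ l)
      linarith
  · left
    refine ⟨?_, ?_, ?_, ?_, ?_⟩
    · show 0 ≤ p 0 + q 0 - (p 0 + q 0) / 2
      omega
    · show -B ≤ p 1 + q 1 - (p 1 + q 1) / 2
      omega
    · show 0 ≤ p 2 + q 2 - (p 2 + q 2) / 2
      omega
    · show p 2 + q 2 - (p 2 + q 2) / 2 ≤ 3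
      omega
    · intro l hl1 hl2
      show l * (p 0 + q 0 - (p 0 + q 0) / 2) + (p 1 + q 1 - (p 1 + q 1) / 2) ≤ l ^ 2 * R
      have e1 := hsum l hl1 hl2
      have e2 : 2 * (p 0 + q 0 - (p 0 + q 0) / 2) ≤ p 0 + q 0 + 1 := by omega
      have e3 : 2 * (p 1 + q 1 - (p 1 + q 1) / 2) ≤ p 1 + q 1 + 1 := by omega
      have e4 := mul_le_mul_of_nonneg_left e2 (by omega : (0 : ℤ) ≤ l)
      linarith
  · intro k
    show p k + q k = (p k + q k) / 2 + (p k + q k - (p k + q k) / 2)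
    ring

/-- an affine function that is nonpositive on the unit square -/
theorem square_cut {c0 c1 c2 : ℝ} (h00 : c0 ≤ 0) (h10 : c0 + c1 ≤ 0) (h01 : c0 + c2 ≤ 0)
    (h11 : c0 + c1 + c2 ≤ 0)
    (e1 : 0 < c0 + 2 * c1 ∨ 0 < c0 - c1 + c2)
    (e2 : 0 < c0 + 2 * c1 + c2 ∨ 0 < c0 - c1)
    (e3 : 0 < c0 + c1 + 2 * c2 ∨ 0 < c0 - c2)
    (e4 : 0 < c0 + 2 * c2 ∨ 0 < c0 + c1 - c2) : False := by
  rcases e1 with e1 | e1 <;> rcases e2 with e2 | e2 <;> rcases e3 with e3 | e3 <;>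
    rcases e4 with e4 | e4 <;> linarith

theorem relax_card {m R B : ℤ} (h : Par m R B) {k : ℕ} (hk : HasRelaxation (XX m R B) k) :
    3 * m ≤ (k : ℤ) := by
  classical
  obtain ⟨a, b, hab⟩ := hk
  have hab' : ∀ z : Fin 3 → ℤ, z ∈ XX m R B ↔
      ∀ j, a j 0 * (z 0 : ℝ) + a j 1 * (z 1 : ℝ) + a j 2 * (z 2 : ℝ) ≤ b j := by
    intro z
    rw [hab z]
    simp only [Fin.sum_univ_three]
  set val : Fin k → (Fin 3 → ℤ) → ℝ := fun j z =>
    a j 0 * (z 0 : ℝ) + a j 1 * (z 1 : ℝ) + a j 2 * (z 2 : ℝ) with hval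
  have hin : ∀ z ∈ XX m R B, ∀ j, val j z ≤ b j := fun z hz => (hab' z).1 hz
  have hout : ∀ z, z ∉ XX m R B → ∃ j, b j < val j z := by
    intro z hz
    by_contra hcon
    push Not at hcon
    exact hz ((hab' z).2 hcon)
  set J : ℤ → Finset (Fin k) := fun i =>
    Finset.univ.filter (fun j => ∃ w ∈ Out, b j < val j (pt R i w.1 w.2)) with hJ
  have hdisj : ∀ i ∈ Finset.Icc 1 m, ∀ i' ∈ Finset.Icc 1 m, i ≠ i' → Disjoint (J i) (J i') := by
    intro i hi i' hi' hne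
    obtain ⟨hi1, hi2⟩ := Finset.mem_Icc.1 hi
    obtain ⟨hj1, hj2⟩ := Finset.mem_Icc.1 hi'
    rw [Finset.disjoint_left]
    intro j h1 h2
    simp only [hJ, Finset.mem_filter, Finset.mem_univ, true_and] at h1 h2
    obtain ⟨w, hw, c1⟩ := h1
    obtain ⟨w', hw', c2⟩ := h2
    obtain ⟨u, v, hu, hv, huv⟩ := half h hi1 hi2 hj1 hj2 hne hw hw'
    have d1 := hin u hu j
    have d2 := hin v hv j
    have e0 := huv 0
    have e1 := huv 1
    have e2 := huv 2
    have f0 : ((pt R i w.1 w.2 0 : ℤ) : ℝ) + ((pt R i' w'.1 w'.2 0 : ℤ) : ℝ) =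
        (u 0 : ℝ) + (v 0 : ℝ) := by exact_mod_cast e0
    have f1 : ((pt R i w.1 w.2 1 : ℤ) : ℝ) + ((pt R i' w'.1 w'.2 1 : ℤ) : ℝ) =
        (u 1 : ℝ) + (v 1 : ℝ) := by exact_mod_cast e1
    have f2 : ((pt R i w.1 w.2 2 : ℤ) : ℝ) + ((pt R i' w'.1 w'.2 2 : ℤ) : ℝ) =
        (u 2 : ℝ) + (v 2 : ℝ) := by exact_mod_cast e2
    simp only [hval] at c1 c2 d1 d2
    have g : a j 0 * ((pt R i w.1 w.2 0 : ℤ) : ℝ) + a j 1 * ((pt R i w.1 w.2 1 : ℤ) : ℝ) +
        a j 2 * ((pt R i w.1 w.2 2 : ℤ) : ℝ) +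
        (a j 0 * ((pt R i' w'.1 w'.2 0 : ℤ) : ℝ) + a j 1 * ((pt R i' w'.1 w'.2 1 : ℤ) : ℝ) +
        a j 2 * ((pt R i' w'.1 w'.2 2 : ℤ) : ℝ)) =
        a j 0 * (u 0 : ℝ) + a j 1 * (u 1 : ℝ) + a j 2 * (u 2 : ℝ) +
        (a j 0 * (v 0 : ℝ) + a j 1 * (v 1 : ℝ) + a j 2 * (v 2 : ℝ)) := by
      linear_combination a j 0 * f0 + a j 1 * f1 + a j 2 * f2
    linarith
  have hthree : ∀ i ∈ Finset.Icc 1 m, 3 ≤ (J i).card := by
    intro i hi
    obtain ⟨hi1, hi2⟩ := Finset.mem_Icc.1 hi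
    set c0 : Fin k → ℝ := fun j =>
      a j 0 * (2 * i * R) + a j 1 * (1 - (i : ℝ) ^ 2 * R) + a j 2 - b j with hc0
    set c1 : Fin k → ℝ := fun j => a j 0 - i * a j 1 with hc1
    have hv : ∀ j α β, val j (pt R i α β) - b j = c0 j + α * c1 j + β * a j 2 := by
      intro j α β
      simp only [hval, hc0, hc1, pt0, pt1, pt2]
      push_cast
      ring
    have hsq : ∀ j, c0 j ≤ 0 ∧ c0 j + c1 j ≤ 0 ∧ c0 j + a j 2 ≤ 0 ∧ c0 j + c1 j + a j 2 ≤ 0 := by
      intro j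
      have mem : ∀ α β : ℤ, 0 ≤ α → α ≤ 1 → 0 ≤ β → β ≤ 1 → pt R i α β ∈ XX m R B := by
        intro α β h1 h2 h3 h4
        exact Or.inr ⟨i, α, β, hi1, hi2, h1, h2, h3, h4, rfl⟩
      have m00 := hin _ (mem 0 0 (by norm_num) (by norm_num) (by norm_num) (by norm_num)) j
      have m10 := hin _ (mem 1 0 (by norm_num) (by norm_num) (by norm_num) (by norm_num)) j
      have m01 := hin _ (mem 0 1 (by norm_num) (by norm_num) (by norm_num) (by norm_num)) j
      have m11 := hin _ (mem 1 1 (by norm_num) (by norm_num) (by norm_num) (by norm_num)) j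
      have v00 := hv j 0 0
      have v10 := hv j 1 0
      have v01 := hv j 0 1
      have v11 := hv j 1 1
      push_cast at v00 v10 v01 v11
      refine ⟨?_, ?_, ?_, ?_⟩ <;> linarith
    have hcutter : ∀ w ∈ Out, ∃ j, 0 < c0 j + w.1 * c1 j + w.2 * a j 2 ∧ j ∈ J i := by
      intro w hw
      obtain ⟨j, hj⟩ := hout _ (Out_not_mem h hi1 hi2 hw)
      refine ⟨j, ?_, ?_⟩
      · have := hv j w.1 w.2
        linarith
      · simp only [hJ, Finset.mem_filter, Finset.mem_univ, true_and]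
        exact ⟨w, hw, hj⟩
    obtain ⟨j1, -, hj1⟩ := hcutter (2, 0) (by decide)
    obtain ⟨s00, s10, s01, s11⟩ := hsq j1
    -- some opposite pair is not cut by `j1`
    have key : ∀ w ∈ Out, ∀ w' ∈ Out, w.1 + w'.1 = 1 → w.2 + w'.2 = 1 →
        ¬ (0 < c0 j1 + w.1 * c1 j1 + w.2 * a j1 2) →
        ¬ (0 < c0 j1 + w'.1 * c1 j1 + w'.2 * a j1 2) → 3 ≤ (J i).card := by
      intro w hw w' hw' hs1 hs2 n1 n2
      obtain ⟨j2, c2, m2⟩ := hcutter w hw
      obtain ⟨j3, c3, m3⟩ := hcutter w' hw'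
      have d12 : j1 ≠ j2 := by rintro rfl; exact n1 c2
      have d13 : j1 ≠ j3 := by rintro rfl; exact n2 c3
      have d23 : j2 ≠ j3 := by
        rintro rfl
        obtain ⟨t00, t10, t01, t11⟩ := hsq j2
        have g1 : (w'.1 : ℝ) = 1 - w.1 := by
          have : w'.1 = 1 - w.1 := by omega
          rw [this]; push_cast; ring
        have g2 : (w'.2 : ℝ) = 1 - w.2 := by
          have : w'.2 = 1 - w.2 := by omega
          rw [this]; push_cast; ring
        rw [g1, g2] at c3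
        linarith
      exact Finset.two_lt_card.2 ⟨j1, hj1, j2, m2, j3, m3, d12, d13, d23⟩
    by_contra hcon
    have k1 := key (2, 0) (by decide) (-1, 1) (by decide) (by norm_num) (by norm_num)
    have k2 := key (2, 1) (by decide) (-1, 0) (by decide) (by norm_num) (by norm_num)
    have k3 := key (1, 2) (by decide) (0, -1) (by decide) (by norm_num) (by norm_num)
    have k4 := key (0, 2) (by decide) (1, -1) (by decide) (by norm_num) (by norm_num)
    push_cast at k1 k2 k3 k4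
    apply square_cut s00 s10 s01 s11
    · by_contra hc
      push Not at hc
      exact hcon (k1 (by linarith [hc.1]) (by linarith [hc.2]))
    · by_contra hc
      push Not at hc
      exact hcon (k2 (by linarith [hc.1]) (by linarith [hc.2]))
    · by_contra hc
      push Not at hc
      exact hcon (k3 (by linarith [hc.1]) (by linarith [hc.2]))
    · by_contra hc
      push Not at hc
      exact hcon (k4 (by linarith [hc.1]) (by linarith [hc.2]))
  have h1 : ((Finset.Icc 1 m).biUnion J).card = ∑ i ∈ Finset.Icc 1 m, (J i).card :=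
    Finset.card_biUnion (fun i hi i' hi' hne => hdisj i hi i' hi' hne)
  have h2 : (Finset.Icc 1 m).card • 3 ≤ ∑ i ∈ Finset.Icc 1 m, (J i).card :=
    Finset.card_nsmul_le_sum _ _ _ hthree
  have h3 : ((Finset.Icc 1 m).biUnion J).card ≤ Fintype.card (Fin k) := Finset.card_le_univ _
  rw [Fintype.card_fin] at h3
  rw [Int.card_Icc, smul_eq_mul] at h2
  have hm := h.hm
  omega

/-- For every `h` there is a finite, full-dimensional, lattice-convex set in `ℤ³` whose relaxation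
complexity exceeds the size of every hiding set by more than `h`; hence the difference of the
relaxation complexity and the hiding set bound is unbounded in dimension three. -/
theorem gap (h : ℕ) : ∃ X : Set (Fin 3 → ℤ), X.Finite ∧ LatticeConvex X ∧ FullDim X ∧
    (∀ H : Finset (Fin 3 → ℤ), Hiding X H → H.card ≤ hidingBound X) ∧
    hidingBound X + h < rc X := by
  set m : ℤ := h + 5 with hm
  have hpar : Par m (m + 10) (m ^ 2 * (m + 10) + 2 * m + 10) := ⟨by omega, rfl, rfl⟩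
  set X := XX m (m + 10) (m ^ 2 * (m + 10) + 2 * m + 10) with hX
  have hbd : ∀ n ∈ {n | ∃ H : Finset (Fin 3 → ℤ), Hiding X H ∧ H.card = n}, n ≤ 2 * (h + 5) + 4 := by
    rintro n ⟨H, hH, rfl⟩
    have := hiding_card hpar hH
    omega
  refine ⟨X, XX_finite hpar, XX_latticeConvex hpar, XX_fullDim hpar, ?_, ?_⟩
  · intro H hH
    exact le_csSup ⟨_, hbd⟩ ⟨H, hH, rfl⟩
  · have h1 : hidingBound X ≤ 2 * (h + 5) + 4 := by
      apply csSup_le
      · exact ⟨0, ∅, ⟨by simp, by simp⟩, rfl⟩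
      · exact hbd
    have h2 : HasRelaxation X (rc X) := by
      have hne : {k | HasRelaxation X k}.Nonempty :=
        exists_relaxation (XX_finite hpar) (XX_latticeConvex hpar)
      exact Nat.sInf_mem hne
    have h3 := relax_card hpar h2
    omega

/-- The answer to the question is negative: there is no family of constants `h_d`. -/
theorem result :
    (∀ h : ℕ, ∃ X : Set (Fin 3 → ℤ), X.Finite ∧ LatticeConvex X ∧ FullDim X ∧
      (∀ H : Finset (Fin 3 → ℤ), Hiding X H → H.card ≤ hidingBound X) ∧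
      hidingBound X + h < rc X) ∧
    ¬ ∀ d : ℕ, 1 ≤ d → ∃ h : ℕ, ∀ X : Set (Fin d → ℤ), X.Finite → LatticeConvex X →
      FullDim X → rc X ≤ hidingBound X + h := by
  refine ⟨gap, ?_⟩
  intro hall
  obtain ⟨h, hh⟩ := hall 3 (by norm_num)
  obtain ⟨X, h1, h2, h3, -, h4⟩ := gap h
  have := hh X h1 h2 h3
  omega

end Pool.Agent.Results.MP_288038_co.GapUnbounded
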